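import Pool.Agent.H98.PW.Stmts

set_option autoImplicit false

namespace Pool.PW

open Finset Filter

/-- DIC: one of two parts of a large family is large. -/
theorem dic_thm : S_DIC := by
  intro U X n T T1 T2 hX hT hsub
  obtain ⟨c, hc, hlarge⟩ := hT
  have hc2 : 0 < c / 2 := by linarith
  have h2 : ∀ᶠ m in (U : Filter ℕ), 2 ≤ X m ^ (c / 2) :=
    ((tendsto_rpow_atTop hc2).comp hX).eventually (eventually_ge_atTop 2)
  have h1 : ∀ᶠ m in (U : Filter ℕ), 1 ≤ X m := hX.eventually (eventually_ge_atTop 1)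
  have hmain : ∀ᶠ m in (U : Filter ℕ),
      X m ^ (c / 2) ≤ ((T1 m).card : ℝ) ∨ X m ^ (c / 2) ≤ ((T2 m).card : ℝ) := by
    filter_upwards [h1, h2, hlarge] with m hm1 hm2 hm3
    have hcard : ((T m).card : ℝ) ≤ (T1 m).card + (T2 m).card := by
      have h := (card_le_card (hsub m)).trans (card_union_le (T1 m) (T2 m))
      exact_mod_cast h
    have hsq : X m ^ c = X m ^ (c / 2) * X m ^ (c / 2) := by
      rw [← Real.rpow_add (by linarith)]; congr 1; ring
    by_contra hcon
    push Not at hcon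
    obtain ⟨ha, hb⟩ := hcon
    have : X m ^ (c / 2) * X m ^ (c / 2) < 2 * X m ^ (c / 2) := by
      calc X m ^ (c / 2) * X m ^ (c / 2) = X m ^ c := hsq.symm
        _ ≤ (T m).card := hm3
        _ ≤ (T1 m).card + (T2 m).card := hcard
        _ < 2 * X m ^ (c / 2) := by linarith
    nlinarith
  rcases Ultrafilter.eventually_or.1 hmain with h | h
  · exact Or.inl ⟨c / 2, hc2, h⟩
  · exact Or.inr ⟨c / 2, hc2, h⟩

end Pool.PW
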