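import Pool.Agent.H98.PW.Stmts

set_option autoImplicit false

namespace Pool.PW

open Finset Filter MvPolynomial

/-- HTE: values of moderate polynomials are moderate. -/
theorem hte_thm : S_HTE := by
  intro U X n F
  induction F using MvPolynomial.induction_on with
  | C a =>
    obtain ⟨C0, u, v, h⟩ := a.2
    refine ⟨C0, ?_⟩
    filter_upwards [h] with m ⟨h1, h2, h3, h4⟩
    intro x _
    have hev : ev m x (C a : RP U X n) = (a : ℕ → ℚ) m := by
      simp [ev, lv, lam]
    rw [hev]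
    have hv1 : (1 : ℝ) ≤ |(v m : ℝ)| := by
      have : (1 : ℤ) ≤ |v m| := Int.one_le_abs h1
      exact_mod_cast this
    have heq : |(((a : ℕ → ℚ) m : ℚ) : ℝ)| * |(v m : ℝ)| = |(u m : ℝ)| := by
      rw [← abs_mul]
      congr 1
      exact_mod_cast h2
    calc |(((a : ℕ → ℚ) m : ℚ) : ℝ)| ≤ |(((a : ℕ → ℚ) m : ℚ) : ℝ)| * |(v m : ℝ)| :=
          le_mul_of_one_le_right (abs_nonneg _) hv1
      _ = |(u m : ℝ)| := heq
      _ ≤ mm X m ^ C0 := h3
  | add p q hp hq =>
    obtain ⟨B, hB⟩ := hp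
    obtain ⟨B', hB'⟩ := hq
    refine ⟨B + B' + 1, ?_⟩
    filter_upwards [hB, hB'] with m hm hm'
    intro x hx
    have h2 : (2 : ℝ) ≤ mm X m := by unfold mm; linarith [abs_nonneg (X m)]
    have h1 : (1 : ℝ) ≤ mm X m := by linarith
    have hev : ev m x (p + q) = ev m x p + ev m x q := by
      simp [ev, lv]
    rw [hev]
    push_cast
    calc |((ev m x p : ℚ) : ℝ) + ((ev m x q : ℚ) : ℝ)|
        ≤ |((ev m x p : ℚ) : ℝ)| + |((ev m x q : ℚ) : ℝ)| := abs_add_le _ _
      _ ≤ mm X m ^ B + mm X m ^ B' := add_le_add (hm x hx) (hm' x hx)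
      _ ≤ mm X m ^ (B + B') + mm X m ^ (B + B') :=
          add_le_add (pow_le_pow_right₀ h1 (by omega)) (pow_le_pow_right₀ h1 (by omega))
      _ = 2 * mm X m ^ (B + B') := by ring
      _ ≤ mm X m * mm X m ^ (B + B') := mul_le_mul_of_nonneg_right h2 (by positivity)
      _ = mm X m ^ (B + B' + 1) := by rw [pow_succ]; ring
  | mul_X p i hp =>
    obtain ⟨B, hB⟩ := hp
    refine ⟨B + 1, ?_⟩
    filter_upwards [hB] with m hm
    intro x hx
    have h2 : (2 : ℝ) ≤ mm X m := by unfold mm; linarith [abs_nonneg (X m)]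
    have hev : ev m x (p * MvPolynomial.X i) = ev m x p * (x i : ℚ) := by
      simp [ev, lv]
    rw [hev]
    push_cast
    have hxi : |((x i : ℕ) : ℝ)| ≤ mm X m := by
      rw [Nat.abs_cast]
      have := hx i
      unfold mm
      linarith [le_abs_self (X m)]
    rw [abs_mul, pow_succ]
    exact mul_le_mul (hm x hx) hxi (abs_nonneg _) (by positivity)

end Pool.PW
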